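import Pool.Agent.Y794.Sm.Stmts

set_option autoImplicit false
set_option linter.unusedSectionVars false

open scoped NumberField

namespace Pool.Agent.Y359.Sm

open Finset

section nonarch

/-- A valuation ring of a field extends to any bigger field: smaller than one stays smaller than one. -/
lemma exists_dominating {K L Γ : Type*} [Field K] [Field L] [Algebra K L]
    [LinearOrderedCommGroupWithZero Γ] (v : Valuation K Γ) :
    ∃ B : ValuationSubring L, ∀ x : K, v x < 1 → B.valuation (algebraMap K L x) < 1 := by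
  obtain ⟨B, h, hloc⟩ := IsLocalRing.exists_factor_valuationRing
    (R := v.valuationSubring) ((algebraMap K L).comp v.valuationSubring.subtype)
  refine ⟨B, fun x hx => ?_⟩
  have hxO : x ∈ v.valuationSubring := (Valuation.mem_valuationSubring_iff _ _).2 hx.le
  set y : v.valuationSubring := ⟨x, hxO⟩ with hy
  have hB : algebraMap K L x ∈ B := h y
  refine lt_of_le_of_ne ((B.valuation_le_one_iff _).2 hB) fun h1 => ?_
  have hu : IsUnit (⟨algebraMap K L x, hB⟩ : B) := (B.valuation_eq_one_iff _).2 h1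
  have hu2 : IsUnit y := by
    apply hloc.map_nonunit
    exact hu
  have hu3 : v x = 1 := by
    obtain ⟨z, hz⟩ := isUnit_iff_exists_inv.1 hu2
    have hz1 : x * (z : K) = 1 := congrArg Subtype.val hz
    have hz2 : v (z : K) ≤ 1 := (Valuation.mem_valuationSubring_iff _ _).1 z.2
    have h3 : v x * v (z : K) = 1 := by rw [← map_mul, hz1, map_one]
    by_contra hne
    have h4 : v x < 1 := lt_of_le_of_ne hx.le hne
    have h5 : v x * v (z : K) < 1 := by
      calc v x * v (z:K) ≤ v x * 1 := mul_le_mul_right hz2 _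
        _ = v x := mul_one _
        _ < 1 := h4
    exact absurd h3 h5.ne
  exact absurd hu3 hx.ne

end nonarch

section fwd

variable {K : Type} [Field K] [NumberField K] {n : ℕ}

/-- existence of an automorphism moving `α i` to a given root -/
lemma exists_aut {α : Fin n → AlgebraicClosure K} (i : Fin n) {β : AlgebraicClosure K}
    (hβ : Polynomial.aeval β (minpoly K (α i)) = 0) :
    ∃ σ : AlgebraicClosure K ≃ₐ[K] AlgebraicClosure K, σ (α i) = β := by
  have h1 : IsConjRoot K (α i) β :=
    isConjRoot_of_aeval_eq_zero (Algebra.IsIntegral.isIntegral _) hβ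
  obtain ⟨σ, hσ⟩ := (isConjRoot_iff_exists_algEquiv (K := K)).1 h1.symm
  exact ⟨σ, hσ⟩

/-- the finite set of the roots -/
noncomputable def Rt (x : AlgebraicClosure K) : Finset (AlgebraicClosure K) := by
  classical
  exact (minpoly K x).aroots (AlgebraicClosure K) |>.toFinset

lemma mem_Rt {x y : AlgebraicClosure K} :
    y ∈ Rt x ↔ Polynomial.aeval y (minpoly K x) = 0 := by
  classical
  unfold Rt
  rw [Multiset.mem_toFinset, Polynomial.mem_aroots]
  exact and_iff_right (minpoly.ne_zero (Algebra.IsIntegral.isIntegral _))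

lemma aut_mem_Rt {α : Fin n → AlgebraicClosure K}
    (hα : ∀ i j, minpoly K (α i) = minpoly K (α j))
    (σ : AlgebraicClosure K ≃ₐ[K] AlgebraicClosure K) (i j : Fin n) : σ (α j) ∈ Rt (α i) := by
  rw [mem_Rt, hα i j]
  have := Polynomial.aeval_algHom_apply (σ : AlgebraicClosure K →ₐ[K] AlgebraicClosure K) (α j)
    (minpoly K (α j))
  rw [minpoly.aeval, map_zero] at this
  exact this

lemma rel_aut {a : Fin n → K} {α : Fin n → AlgebraicClosure K}
    (h : ∑ i, algebraMap K (AlgebraicClosure K) (a i) * α i = 0)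
    (σ : AlgebraicClosure K ≃ₐ[K] AlgebraicClosure K) :
    ∑ i, algebraMap K (AlgebraicClosure K) (a i) * σ (α i) = 0 := by
  have h1 := congrArg σ h
  rw [map_sum, map_zero] at h1
  rw [← h1]
  refine sum_congr rfl fun i _ => ?_
  rw [map_mul, AlgEquiv.commutes]

/-- the dominant coefficient cannot be isolated (nonarchimedean case) -/
lemma nonarch {Γ : Type*} [LinearOrderedCommGroupWithZero Γ] (v : Valuation K Γ) (a : Fin n → K)
    (α : Fin n → AlgebraicClosure K) (h0 : ∀ i, α i ≠ 0)
    (hα : ∀ i j, minpoly K (α i) = minpoly K (α j))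
    (h : ∑ i, algebraMap K (AlgebraicClosure K) (a i) * α i = 0) (i : Fin n) (hai : a i ≠ 0) :
    ∃ j : Fin n, j ≠ i ∧ v (a i) ≤ v (a j) := by
  by_contra hcon
  push Not at hcon
  obtain ⟨B, hB⟩ := exists_dominating (L := AlgebraicClosure K) v
  obtain ⟨β, hβ, hmax⟩ := (Rt (α i)).exists_max_image (fun x => B.valuation x)
    ⟨α i, by rw [mem_Rt]; exact minpoly.aeval _ _⟩
  obtain ⟨σ, hσ⟩ := exists_aut i (mem_Rt.1 hβ)
  have hβ0 : β ≠ 0 := by
    rw [← hσ]
    exact (map_ne_zero_iff _ σ.injective).2 (h0 i)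
  have hrel := rel_aut h σ
  rw [← Finset.add_sum_erase univ _ (mem_univ i), hσ] at hrel
  have hai' : algebraMap K (AlgebraicClosure K) (a i) ≠ 0 :=
    (map_ne_zero_iff _ (algebraMap K (AlgebraicClosure K)).injective).2 hai
  have h2 : β = ∑ j ∈ univ.erase i,
      -(algebraMap K (AlgebraicClosure K) (a j / a i) * σ (α j)) := by
    have h3 : β = -((algebraMap K (AlgebraicClosure K) (a i))⁻¹ *
        ∑ j ∈ univ.erase i, algebraMap K (AlgebraicClosure K) (a j) * σ (α j)) := by
      have h4 : ∑ j ∈ univ.erase i, algebraMap K (AlgebraicClosure K) (a j) * σ (α j) =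
          -(algebraMap K (AlgebraicClosure K) (a i) * β) := by
        linear_combination hrel
      rw [h4]
      field_simp
    rw [h3, mul_sum, ← sum_neg_distrib]
    refine sum_congr rfl fun j _ => ?_
    rw [map_div₀]
    field_simp
  have h5 : B.valuation β < B.valuation β := by
    conv_lhs => rw [h2]
    refine Valuation.map_sum_lt _ ((Valuation.ne_zero_iff _).2 hβ0) fun j hj => ?_
    rw [Valuation.map_neg, Valuation.map_mul]
    have hj' := ne_of_mem_erase hj
    have h6 : v (a j / a i) < 1 := by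
      rw [map_div₀]
      exact (div_lt_one₀ (zero_lt_iff.2 ((Valuation.ne_zero_iff _).2 hai))).2 (hcon j hj')
    have h7 := hB _ h6
    have h8 : B.valuation (σ (α j)) ≤ B.valuation β := hmax _ (aut_mem_Rt hα σ i j)
    calc B.valuation (algebraMap K (AlgebraicClosure K) (a j / a i)) * B.valuation (σ (α j)) ≤
          B.valuation (algebraMap K (AlgebraicClosure K) (a j / a i)) * B.valuation β :=
          mul_le_mul_right h8 _
      _ < 1 * B.valuation β := by
          refine mul_lt_mul_of_pos_right h7 ?_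
          exact zero_lt_iff.2 ((Valuation.ne_zero_iff _).2 hβ0)
      _ = B.valuation β := one_mul _
  exact absurd h5 (lt_irrefl _)

/-- complex numbers with sum one and norms of sum at most one -/
lemma equality_case {ι : Type} [DecidableEq ι] (s : Finset ι) (z : ι → ℂ) (c : ι → ℝ)
    (hz : ∀ j ∈ s, ‖z j‖ ≤ c j) (hc : ∑ j ∈ s, c j ≤ 1) (h : ∑ j ∈ s, z j = 1) :
    ∀ j ∈ s, z j = (c j : ℂ) := by
  have h1 : ∑ j ∈ s, (z j).re = 1 := by
    rw [← Complex.re_sum, h, Complex.one_re]
  have hle : ∀ j ∈ s, (z j).re ≤ c j := fun j hj => (Complex.re_le_norm _).trans (hz j hj)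
  have h2 : ∑ j ∈ s, (c j - (z j).re) ≤ 0 := by
    rw [sum_sub_distrib, h1]
    linarith
  have h3 : ∀ j ∈ s, c j - (z j).re = 0 := by
    apply (sum_eq_zero_iff_of_nonneg (fun j hj => sub_nonneg.2 (hle j hj))).1
    exact le_antisymm h2 (sum_nonneg fun j hj => sub_nonneg.2 (hle j hj))
  intro j hj
  have h4 : (z j).re = c j := by linarith [h3 j hj]
  have h5 : ‖z j‖ = (z j).re := le_antisymm (by rw [h4]; exact hz j hj) (Complex.re_le_norm _)
  have h6 : (z j).im = 0 := by
    have h7 := Complex.sq_norm (z j)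
    rw [h5, Complex.normSq_apply] at h7
    nlinarith
  apply Complex.ext
  · rw [h4, Complex.ofReal_re]
  · rw [h6, Complex.ofReal_im]

/-- the archimedean equality case gives a relation of roots of unity -/
lemma arch (w : NumberField.InfinitePlace K) (a : Fin n → K)
    (α : Fin n → AlgebraicClosure K) (h0 : ∀ i, α i ≠ 0)
    (hα : ∀ i j, minpoly K (α i) = minpoly K (α j))
    (h : ∑ i, algebraMap K (AlgebraicClosure K) (a i) * α i = 0) (i : Fin n)
    (hw : ∑ j ∈ univ.erase i, w (a j) ≤ w (a i)) :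
    ∃ ω : Fin n → AlgebraicClosure K,
        (∀ i, ∃ m : ℕ, 0 < m ∧ ω i ^ m = 1) ∧
        ∑ i, algebraMap K (AlgebraicClosure K) (a i) * ω i = 0 := by
  by_cases hai : a i = 0
  · refine ⟨fun _ => 1, fun _ => ⟨1, one_pos, one_pow 1⟩, ?_⟩
    refine sum_eq_zero fun j _ => ?_
    have h1 : w (a j) = 0 := by
      by_cases hj : j = i
      · rw [hj, hai, map_zero]
      · rw [hai, map_zero] at hw
        have h2 := Finset.single_le_sum (f := fun j => w (a j)) (fun j _ => apply_nonneg w _)
          (mem_erase.2 ⟨hj, mem_univ j⟩)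
        exact le_antisymm (h2.trans hw) (apply_nonneg w _)
    have h2 : a j = 0 := (map_eq_zero w).1 h1
    rw [h2, map_zero, zero_mul]
  -- the embedding
  let _ : Algebra K ℂ := w.embedding.toAlgebra
  let τ : AlgebraicClosure K →ₐ[K] ℂ := IsAlgClosed.lift
  have hτ : ∀ x : K, ‖τ (algebraMap K (AlgebraicClosure K) x)‖ = w x := by
    intro x
    rw [AlgHom.commutes]
    exact w.norm_embedding_eq x
  have hτinj : Function.Injective τ := τ.toRingHom.injective
  have hwi : 0 < w (a i) := NumberField.InfinitePlace.pos_iff.2 hai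
  have hai' : algebraMap K (AlgebraicClosure K) (a i) ≠ 0 :=
    (map_ne_zero_iff _ (algebraMap K (AlgebraicClosure K)).injective).2 hai
  obtain ⟨β, hβ, hmax⟩ := (Rt (α i)).exists_max_image (fun x => ‖τ x‖)
    ⟨α i, by rw [mem_Rt]; exact minpoly.aeval _ _⟩
  have hRt0 : ∀ x ∈ Rt (α i), x ≠ 0 := by
    intro x hx
    obtain ⟨σ, hσ⟩ := exists_aut i (mem_Rt.1 hx)
    rw [← hσ]
    exact (map_ne_zero_iff _ σ.injective).2 (h0 i)
  have hβ0 : 0 < ‖τ β‖ := by
    rw [norm_pos_iff]
    exact (map_ne_zero_iff _ hτinj).2 (hRt0 β hβ)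
  -- the key
  have key : ∀ σ : AlgebraicClosure K ≃ₐ[K] AlgebraicClosure K, ‖τ (σ (α i))‖ = ‖τ β‖ →
      ∀ j, j ≠ i → a j ≠ 0 →
        τ (-(algebraMap K (AlgebraicClosure K) (a j / a i)) * (σ (α j) / σ (α i))) =
          ((w (a j / a i) : ℝ) : ℂ) ∧ ‖τ (σ (α j))‖ = ‖τ β‖ := by
    intro σ hσ j hj haj
    have hσi : σ (α i) ≠ 0 := (map_ne_zero_iff _ σ.injective).2 (h0 i)
    have hrel := rel_aut h σ
    rw [← Finset.add_sum_erase univ _ (mem_univ i)] at hrel
    have h2 : ∑ j ∈ univ.erase i,
        (-(algebraMap K (AlgebraicClosure K) (a j / a i)) * (σ (α j) / σ (α i))) = 1 := by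
      have h3 : ∀ j ∈ univ.erase i,
          -(algebraMap K (AlgebraicClosure K) (a j / a i)) * (σ (α j) / σ (α i)) =
          -((algebraMap K (AlgebraicClosure K) (a i) * σ (α i))⁻¹) *
            (algebraMap K (AlgebraicClosure K) (a j) * σ (α j)) := by
        intro j _
        rw [map_div₀]
        field_simp
      rw [sum_congr rfl h3, ← mul_sum]
      have h4 : ∑ j ∈ univ.erase i, algebraMap K (AlgebraicClosure K) (a j) * σ (α j) =
          -(algebraMap K (AlgebraicClosure K) (a i) * σ (α i)) := by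
        linear_combination hrel
      rw [h4]
      field_simp
    have h3 := congrArg τ h2
    rw [map_sum, map_one] at h3
    have h4 : ∀ j ∈ univ.erase i,
        ‖τ (-(algebraMap K (AlgebraicClosure K) (a j / a i)) * (σ (α j) / σ (α i)))‖ ≤
          w (a j / a i) := by
      intro j _
      rw [map_mul, map_neg, map_div₀ τ, norm_mul, norm_neg, hτ, norm_div]
      refine mul_le_of_le_one_right (apply_nonneg w _) ?_
      rw [hσ, div_le_one hβ0]
      exact hmax _ (aut_mem_Rt hα σ i j)
    have h5 : ∑ j ∈ univ.erase i, w (a j / a i) ≤ 1 := by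
      have h6 : ∀ j ∈ univ.erase i, w (a j / a i) = w (a j) / w (a i) := fun j _ => map_div₀ w _ _
      rw [sum_congr rfl h6, ← sum_div, div_le_one hwi]
      exact hw
    have h6 := equality_case (univ.erase i) _ _ h4 h5 h3 j (mem_erase.2 ⟨hj, mem_univ j⟩)
    refine ⟨h6, ?_⟩
    have h7 := congrArg norm h6
    have hwj : 0 < w (a j / a i) := NumberField.InfinitePlace.pos_iff.2 (div_ne_zero haj hai)
    rw [map_mul, map_neg, map_div₀ τ, norm_mul, norm_neg, hτ, norm_div, Complex.norm_real,
      Real.norm_of_nonneg hwj.le, hσ] at h7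
    have h8 : ‖τ (σ (α j))‖ / ‖τ β‖ = 1 := by
      have h9 : w (a j / a i) * (‖τ (σ (α j))‖ / ‖τ β‖) = w (a j / a i) * 1 := by
        rw [h7, mul_one]
      exact mul_left_cancel₀ hwj.ne' h9
    exact (div_eq_one_iff_eq hβ0.ne').1 h8
  obtain ⟨σ₀, hσ₀⟩ := exists_aut i (mem_Rt.1 hβ)
  have hσ₀' : ‖τ (σ₀ (α i))‖ = ‖τ β‖ := by rw [hσ₀]
  classical
  set u : Fin n → AlgebraicClosure K := fun j => if a j = 0 then 1 else σ₀ (α j) / σ₀ (α i) with hu
  have hσ₀i : σ₀ (α i) ≠ 0 := (map_ne_zero_iff _ σ₀.injective).2 (h0 i)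
  refine ⟨u, ?_, ?_⟩
  · intro j
    by_cases haj : a j = 0
    · refine ⟨1, one_pos, ?_⟩
      rw [hu]
      simp [haj]
    by_cases hji : j = i
    · refine ⟨1, one_pos, ?_⟩
      rw [hu]
      simp only [pow_one]
      rw [if_neg haj, hji, div_self hσ₀i]
    have huj : u j = σ₀ (α j) / σ₀ (α i) := by
      rw [hu]
      simp only
      rw [if_neg haj]
    have hu0 : u j ≠ 0 := by
      rw [huj]
      exact div_ne_zero ((map_ne_zero_iff _ σ₀.injective).2 (h0 j)) hσ₀i
    have hk := (key σ₀ hσ₀' j hji haj).1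
    -- multiplication by `u j` preserves the roots of maximal norm
    have hstep : ∀ x : AlgebraicClosure K, x ∈ Rt (α i) → ‖τ x‖ = ‖τ β‖ →
        u j * x ∈ Rt (α i) ∧ ‖τ (u j * x)‖ = ‖τ β‖ := by
      intro x hx hxn
      obtain ⟨σ, hσ⟩ := exists_aut i (mem_Rt.1 hx)
      have hk2 := key σ (by rw [hσ]; exact hxn) j hji haj
      have h9 : -(algebraMap K (AlgebraicClosure K) (a j / a i)) * (σ (α j) / σ (α i)) =
          -(algebraMap K (AlgebraicClosure K) (a j / a i)) * (σ₀ (α j) / σ₀ (α i)) :=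
        hτinj (hk2.1.trans hk.symm)
      have hc0 : -(algebraMap K (AlgebraicClosure K) (a j / a i)) ≠ 0 := by
        rw [neg_ne_zero]
        exact (map_ne_zero_iff _ (algebraMap K (AlgebraicClosure K)).injective).2
          (div_ne_zero haj hai)
      have h10 : σ (α j) / σ (α i) = u j := by
        rw [huj]
        exact mul_left_cancel₀ hc0 h9
      have hx0 : σ (α i) ≠ 0 := (map_ne_zero_iff _ σ.injective).2 (h0 i)
      have h11 : u j * x = σ (α j) := by
        rw [← h10, ← hσ]
        field_simp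
      rw [h11]
      exact ⟨aut_mem_Rt hα σ i j, hk2.2⟩
    have hpow : ∀ k : ℕ, u j ^ k * β ∈ Rt (α i) ∧ ‖τ (u j ^ k * β)‖ = ‖τ β‖ := by
      intro k
      induction k with
      | zero => rw [pow_zero, one_mul]; exact ⟨hβ, rfl⟩
      | succ k ih =>
        rw [pow_succ', mul_assoc]
        exact hstep _ ih.1 ih.2
    obtain ⟨k, k', hkk, he⟩ := Finite.exists_ne_map_eq_of_infinite
      (fun k : ℕ => (⟨u j ^ k * β, (hpow k).1⟩ : {x // x ∈ Rt (α i)}))
    have he' : u j ^ k * β = u j ^ k' * β := congrArg Subtype.val he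
    have he2 : u j ^ k = u j ^ k' := mul_right_cancel₀ (hRt0 β hβ) he'
    rcases Nat.lt_or_gt_of_ne hkk with hlt | hlt
    · refine ⟨k' - k, by omega, ?_⟩
      have h12 : u j ^ k * u j ^ (k' - k) = u j ^ k * 1 := by
        rw [← pow_add, mul_one, he2]
        congr 1
        omega
      exact mul_left_cancel₀ (pow_ne_zero _ hu0) h12
    · refine ⟨k - k', by omega, ?_⟩
      have h12 : u j ^ k' * u j ^ (k - k') = u j ^ k' * 1 := by
        rw [← pow_add, mul_one, ← he2]
        congr 1
        omega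
      exact mul_left_cancel₀ (pow_ne_zero _ hu0) h12
  · have h13 : ∀ j ∈ (univ : Finset (Fin n)), algebraMap K (AlgebraicClosure K) (a j) * u j =
        (algebraMap K (AlgebraicClosure K) (a j) * σ₀ (α j)) * (σ₀ (α i))⁻¹ := by
      intro j _
      by_cases haj : a j = 0
      · rw [haj, map_zero, zero_mul, zero_mul, zero_mul]
      · rw [hu]
        simp only
        rw [if_neg haj, div_eq_mul_inv, mul_assoc]
    rw [sum_congr rfl h13, ← sum_mul, rel_aut h σ₀, zero_mul]

end fwd

/-- The necessary conditions. -/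
theorem stFwd : Pool.Agent.Y794.Sm.StFwd := by
  intro K _ _ n a α h0 hα h
  by_cases hA : ∀ v : NumberField.InfinitePlace K, ∀ i : Fin n,
      v (a i : K) < ∑ j ∈ Finset.univ.erase i, v (a j : K)
  · left
    refine ⟨hA, fun v i => ?_⟩
    obtain ⟨w⟩ : Nonempty (NumberField.InfinitePlace K) := inferInstance
    by_cases hai : (a i : K) = 0
    · have h1 := hA w i
      have h2 : (univ.erase i).Nonempty := by
        by_contra hne
        rw [Finset.not_nonempty_iff_eq_empty] at hne
        rw [hne, sum_empty] at h1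
        exact absurd h1 (not_lt.2 (apply_nonneg w _))
      obtain ⟨j, hj⟩ := h2
      refine ⟨j, ne_of_mem_erase hj, ?_⟩
      rw [hai, map_zero]
      exact zero_le
    · exact nonarch (v.valuation K) (fun i => (a i : K)) α h0 hα h i hai
  · right
    push Not at hA
    obtain ⟨w, i, hw⟩ := hA
    exact arch w (fun i => (a i : K)) α h0 hα h i hw

end Pool.Agent.Y359.Sm
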